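import Pool.Agent.PFC.StmtsB4b

/-! Squad PFC, row QAH: a given model of the Brauer quotient of an interior algebra. -/

set_option autoImplicit false

open scoped BigOperators TensorProduct

noncomputable section

namespace Pool.Agent.PFC.H90

open Pool.Agent.PFC

theorem cj_app {F V A : Type} [Field F] [Group V] [Ring A] [Algebra F A] (α : V →* A) (v : V) (a : A) :
    cj F α v a = α v * (a * α v⁻¹) := rfl

theorem inv_mul_one {V A : Type} [Group V] [Ring A] (α : V →* A) (v : V) : α v⁻¹ * α v = 1 := by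
  rw [← map_mul, inv_mul_cancel, map_one]

theorem mul_inv_one {V A : Type} [Group V] [Ring A] (α : V →* A) (v : V) : α v * α v⁻¹ = 1 := by
  rw [← map_mul, mul_inv_cancel, map_one]

theorem mem_cz_of_fx {F V A : Type} [Field F] [CommGroup V] [Ring A] [Algebra F A] (α : V →* A)
    (Q : Subgroup V) (a : A) (h : a ∈ Fx (cj F α) Q) : a ∈ Cz F α Q := by
  show a ∈ Subalgebra.centralizer F (α '' (Q : Set V))
  rw [Subalgebra.mem_centralizer_iff]
  rintro g ⟨q, hq, rfl⟩
  have h1 : α q * (a * α q⁻¹) = a := h q hq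
  calc α q * a = α q * (a * α q⁻¹) * α q := by
        rw [mul_assoc, mul_assoc, inv_mul_one, mul_one]
    _ = a * α q := by rw [h1]

theorem fx_of_mem_cz {F V A : Type} [Field F] [CommGroup V] [Ring A] [Algebra F A] (α : V →* A)
    (Q : Subgroup V) (a : A) (h : a ∈ Cz F α Q) : a ∈ Fx (cj F α) Q := by
  intro q hq
  have h' : a ∈ Subalgebra.centralizer F (α '' (Q : Set V)) := h
  rw [Subalgebra.mem_centralizer_iff] at h'
  have h1 : α q * a = a * α q := h' (α q) ⟨q, hq, rfl⟩
  rw [cj_app, ← mul_assoc, h1, mul_assoc, mul_inv_one, mul_one]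

theorem iota_mem_cz {F V A : Type} [Field F] [CommGroup V] [Ring A] [Algebra F A] (α : V →* A)
    (Q : Subgroup V) (v : V) : α v ∈ Cz F α Q := by
  show α v ∈ Subalgebra.centralizer F (α '' (Q : Set V))
  rw [Subalgebra.mem_centralizer_iff]
  rintro g ⟨q, hq, rfl⟩
  rw [← map_mul, ← map_mul, mul_comm]

/-- QAH -/
theorem qah (h1 : QalStmt) (h2 : QkeStmt) : QahStmt := by
  intro ℓ _ F V _ _ _ _ X Y hV hX Q π hsur hker hcov
  obtain ⟨Y', β', s', hB⟩ := h1 ℓ F V X hV hX Q
  obtain ⟨k1, k2, k3⟩ := h2 ℓ F V X.A Y'.A (cj F X.ι) (cj F Y'.ι) Q β' s' hV hB.toBrS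
  have hs : ∀ y, s' y ∈ Cz F X.ι Q := fun y => mem_cz_of_fx X.ι Q _ (k1 y)
  -- the linear map
  let e : Y'.A →ₗ[F] Y.A :=
    { toFun := fun y => π ⟨s' y, hs y⟩
      map_add' := by
        intro a b
        rw [← map_add π]
        apply congrArg π
        apply Subtype.ext
        exact map_add s' a b
      map_smul' := by
        intro c a
        rw [RingHom.id_apply, ← map_smul π]
        apply congrArg π
        apply Subtype.ext
        exact map_smul s' c a }
  have he : ∀ y, e y = π ⟨s' y, hs y⟩ := fun y => rfl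
  have heb : ∀ a : Cz F X.ι Q, e (β' a) = π a := by
    intro a
    have hfx : (a : X.A) ∈ Fx (cj F X.ι) Q := fx_of_mem_cz X.ι Q _ a.2
    have h3 := k3 a hfx
    have h4 : π (a - ⟨s' (β' a), hs (β' a)⟩) = 0 := by
      rw [hker]
      exact h3
    rw [map_sub, sub_eq_zero] at h4
    rw [he, h4]
  have heinj : Function.Injective e := by
    intro y z hyz
    have h5 : e (y - z) = 0 := by
      rw [map_sub, hyz, sub_self]
    have h6 : (s' (y - z)) ∈ BK (cj F X.ι) Q := (hker ⟨s' (y - z), hs (y - z)⟩).1 h5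
    have h7 := (k2 _ (k1 (y - z))).2 h6
    rw [hB.bs] at h7
    exact sub_eq_zero.1 h7
  have hesur : Function.Surjective e := by
    intro z
    obtain ⟨a, ha⟩ := hsur z
    exact ⟨β' a, by rw [heb, ha]⟩
  have hemul : ∀ y z, e (y * z) = e y * e z := by
    intro y z
    have h8 : y * z = β' (s' y * s' z) := by
      rw [hB.mul _ (k1 y) _ (k1 z), hB.bs, hB.bs]
    have h9 := heb (⟨s' y, hs y⟩ * ⟨s' z, hs z⟩)
    rw [h8]
    refine Eq.trans h9 ?_
    rw [map_mul, he, he]
  have hev : ∀ v, e (Y'.ι v) = Y.ι v := by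
    intro v
    rw [← hB.cov v]
    exact (heb ⟨X.ι v, iota_mem_cz X.ι Q v⟩).trans (hcov v _)
  have hecj : ∀ v y, e (cj F Y'.ι v y) = cj F Y.ι v (e y) := by
    intro v y
    rw [cj_app, cj_app, hemul, hemul, hev, hev]
  let E : Y'.A ≃ₗ[F] Y.A := LinearEquiv.ofBijective e ⟨heinj, hesur⟩
  have hE : ∀ y, E y = e y := fun y => rfl
  have hEs : ∀ z, e (E.symm z) = z := fun z => E.apply_symm_apply z
  refine ⟨e ∘ₗ β', s' ∘ₗ E.symm.toLinearMap, ⟨⟨?_, ?_, ?_, ?_, ?_⟩, ?_, ?_⟩, ?_⟩
  · intro n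
    show e (β' (s' (E.symm n))) = n
    rw [hB.bs, hEs]
  · intro v m
    show e (β' (cj F X.ι v m)) = cj F Y.ι v (e (β' m))
    rw [hB.eb, hecj]
  · intro v n
    show s' (E.symm (cj F Y.ι v n)) = cj F X.ι v (s' (E.symm n))
    rw [← hB.es]
    apply congrArg s'
    apply heinj
    rw [hEs, hecj, hEs]
  · intro q hq n
    have h10 := hB.tr q hq (E.symm n)
    have h11 := hecj q (E.symm n)
    rw [h10, hEs] at h11
    exact h11.symm
  · have h12 : (s' ∘ₗ E.symm.toLinearMap) ∘ₗ (e ∘ₗ β') = s' ∘ₗ β' := by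
      apply LinearMap.ext
      intro m
      show s' (E.symm (e (β' m))) = s' (β' m)
      have h13 : E.symm (e (β' m)) = β' m := E.symm_apply_apply (β' m)
      rw [h13]
    rw [h12]
    exact hB.hg
  · intro a ha b hb
    show e (β' (a * b)) = e (β' a) * e (β' b)
    rw [hB.mul a ha b hb, hemul]
  · intro v
    show e (β' (X.ι v)) = Y.ι v
    rw [hB.cov, hev]
  · intro a
    exact heb a

end Pool.Agent.PFC.H90
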